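import Pool.Agent.H.MP_73128c_co.A

namespace Pool.Agent.Results.MP_73128c_co.ThreeFour

theorem result (k : ℕ) (hk : k = 3 ∨ k = 4) :
    ∃ (n : ℕ) (G : SimpleGraph (Fin n)), G.Connected ∧
      (∃ t : Fin n → Fin k, Function.Surjective t ∧ ∀ u v, t u = t v ↔
        Nonempty (G.induce {w | w ≠ u} ≃g G.induce {w | w ≠ v})) ∧
      ∃ p : Fin (k + 1) → Fin n, ∀ i j, (∃ e : G ≃g G, e (p i) = p j) → i = j :=
  H.MP_73128c_co.main k hk

end Pool.Agent.Results.MP_73128c_co.ThreeFour
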